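import Mathlib
import Pool.Agent.H21.FRDef2
import Pool.Agent.H21.FREx

namespace Pool.Agent.Results.MP_d93d44_co.NotClosed

open Pool.Agent.H21 Pool.Agent.H21.FR2 Pool.Agent.H21.FREx Matrix Real

theorem revival : ProperRevival G (.inl false) (.inl true) := by
  have h5 : ((√5 : ℝ) : ℂ) ≠ 0 := by exact_mod_cast (by positivity : (√5 : ℝ) ≠ 0)
  have hs : FREx.U.IsSymm := (G.isSymm_adjMatrix.smul _).exp
  have h1 := U_v _ goldenRatio_sq
  have h2 := U_v _ goldenConj_sq
  rw [mulVec_add, mulVec_smul, mulVec_single_one, mulVec_single_one] at h1 h2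
  refine ⟨τ, fun c ha hb => ?_, ?_⟩
  · have e1 := congrFun h1 c
    have e2 := congrFun h2 c
    simp [ha, hb] at e1 e2
    change FREx.U _ _ = 0 ∧ FREx.U _ _ = 0
    rw [hs.apply, hs.apply c]
    have : FREx.U c (.inl false) = 0 := by
      apply mul_left_cancel₀ h5
      linear_combination e1 - e2
    exact ⟨this, by rw [this] at e1; simpa using e1⟩
  · have e1 := congrFun h1 (.inl true)
    have e2 := congrFun h2 (.inl true)
    simp at e1 e2
    change FREx.U _ _ ≠ 0
    rw [hs.apply]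
    intro h
    rw [h] at e1 e2
    exact ph_ne (by linear_combination e2 - e1)

theorem proj_F (θ ψ z : ℝ) (hψ : ψ ^ 2 = ψ + 1) (hz : (z ^ 2 - 864) * (z ^ 2 - 6) = 0)
    (hne : θ ≠ 6912 * (12 + ψ + z)) :
    (Module.End.eigenspace (Matrix.toEuclideanLin (G.adjMatrix ℝ)) θ).starProjection
      (WithLp.toLp 2 (F ψ z)) = 0 := by
  rw [Submodule.starProjection_apply_eq_zero_iff]
  have hs : (Matrix.toEuclideanLin (G.adjMatrix ℝ)).IsSymmetric :=
    Matrix.isHermitian_iff_isSymmetric.mp (by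
      rw [Matrix.IsHermitian, conjTranspose_eq_transpose_of_trivial]; exact G.isSymm_adjMatrix)
  intro y hy
  have hx : WithLp.toLp 2 (F ψ z) ∈ Module.End.eigenspace
      (Matrix.toEuclideanLin (G.adjMatrix ℝ)) (6912 * (12 + ψ + z)) := by
    rw [Module.End.mem_eigenspace_iff, Matrix.toEuclideanLin_toLp, Matrix.toLin'_apply,
      eig _ _ hψ hz]; rfl
  exact hs.orthogonalFamily_eigenspaces hne ⟨y, hy⟩ ⟨_, hx⟩

theorem E_rel (θ ψ : ℝ) (hψ : ψ ^ 2 = ψ + 1)
    (hne : ∀ m : ℤ, θ ≠ 6912 * (12 + ψ + m * √6)) :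
    E G θ (.inl false) (.inl true) = -ψ * E G θ (.inl false) (.inl false) := by
  have hs : √6 ^ 2 = 6 := Real.sq_sqrt (by norm_num)
  have h0 : (142331904 * √6 : ℝ) ≠ 0 := by positivity
  have e : (142331904 * √6 : ℝ) • (ψ • EuclideanSpace.single (Sum.inl false) 1 +
      EuclideanSpace.single (Sum.inl true) 1 : EuclideanSpace ℝ V) =
      WithLp.toLp 2 (F ψ (12 * √6)) - WithLp.toLp 2 (F ψ (-(12 * √6))) -
        (12 : ℝ) • (WithLp.toLp 2 (F ψ √6) - WithLp.toLp 2 (F ψ (-√6))) := by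
    ext v
    have := comb ψ _ hs v
    simp only [PiLp.smul_apply, PiLp.add_apply, PiLp.sub_apply, smul_eq_mul,
      EuclideanSpace.single_apply, Pi.single_apply] at this ⊢
    exact this.symm
  have p := congrArg (Module.End.eigenspace
    (Matrix.toEuclideanLin (G.adjMatrix ℝ)) θ).starProjection e
  rw [map_sub, map_sub, map_smul, map_smul, map_sub,
    proj_F θ ψ _ hψ (by rw [mul_pow, hs]; ring) (by simpa using hne 12),
    proj_F θ ψ _ hψ (by rw [neg_sq, mul_pow, hs]; ring) (by simpa using hne (-12)),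
    proj_F θ ψ _ hψ (by rw [hs]; ring) (by simpa using hne 1),
    proj_F θ ψ _ hψ (by rw [neg_sq, hs]; ring) (by simpa using hne (-1)), map_add, map_smul] at p
  simp only [sub_zero, smul_zero, smul_eq_zero, h0, false_or] at p
  have := congrArg (fun x : EuclideanSpace ℝ V => x (.inl false)) p
  simp only [PiLp.add_apply, PiLp.smul_apply, smul_eq_mul, PiLp.zero_apply] at this
  unfold E; linarith

theorem E_diag (θ : ℝ) (a : V) : E G θ a a = ‖(Module.End.eigenspace
    (Matrix.toEuclideanLin (G.adjMatrix ℝ)) θ).starProjection (EuclideanSpace.single a 1)‖ ^ 2 := by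
  rw [← real_inner_self_eq_norm_sq, Submodule.inner_starProjection_left_eq_right,
    Submodule.starProjection_eq_self_iff.mpr (Submodule.starProjection_apply_mem _ _),
    EuclideanSpace.inner_single_left]
  simp [E]

theorem ne56 (n : ℤ) : √5 ≠ n * √6 := by
  intro h2
  have h3 : (5 : ℝ) = n ^ 2 * 6 := by
    rw [← Real.sq_sqrt (show (0 : ℝ) ≤ 5 by norm_num), h2, mul_pow, Real.sq_sqrt (by norm_num)]
  have h4 : (5 : ℤ) = n ^ 2 * 6 := by exact_mod_cast h3
  omega

open Polynomial in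
theorem conj (p : ℚ[X]) : ∃ a b c d : ℚ,
    aeval (6912 * (12 + goldenRatio + √6) : ℝ) p = a + b * √5 + c * √6 + d * (√5 * √6) ∧
    aeval (6912 * (12 + goldenConj + √6) : ℝ) p = a - b * √5 + c * √6 - d * (√5 * √6) := by
  have h5 : √5 ^ 2 = 5 := Real.sq_sqrt (by norm_num)
  have h6 : √6 ^ 2 = 6 := Real.sq_sqrt (by norm_num)
  induction p using Polynomial.induction_on with
  | C a => exact ⟨a, 0, 0, 0, by simp, by simp⟩
  | add p q hp hq =>
    obtain ⟨a, b, c, d, h1, h2⟩ := hp
    obtain ⟨a', b', c', d', h1', h2'⟩ := hq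
    exact ⟨a + a', b + b', c + c', d + d', by rw [map_add, h1, h1']; push_cast; ring,
      by rw [map_add, h2, h2']; push_cast; ring⟩
  | monomial n x hp =>
    obtain ⟨a, b, c, d, h1, h2⟩ := hp
    refine ⟨86400 * a + 17280 * b + 41472 * c, 86400 * b + 3456 * a + 41472 * d,
      86400 * c + 6912 * a + 17280 * d, 86400 * d + 6912 * b + 3456 * c, ?_, ?_⟩
    · rw [pow_succ, ← mul_assoc, map_mul, h1, aeval_X, goldenRatio]; push_cast
      linear_combination 3456 * (b + d * √6) * h5 + 6912 * (c + d * √5) * h6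
    · rw [pow_succ, ← mul_assoc, map_mul, h2, aeval_X, goldenConj]; push_cast
      linear_combination 3456 * (b + d * √6) * h5 + 6912 * (c - d * √5) * h6

theorem result : ∃ (V : Type) (_ : Fintype V) (_ : DecidableEq V) (G : SimpleGraph V)
    (_ : DecidableRel G.Adj) (a b : V), a ≠ b ∧ ProperRevival G a b ∧
      ∃ θ ∈ Cplus G a b, ∃ θ' : ℝ, Polynomial.aeval θ' (minpoly ℚ θ) = 0 ∧ θ' ∉ Cplus G a b := by
  have h6 : √6 ^ 2 = 6 := Real.sq_sqrt (by norm_num)
  have hd := goldenRatio_sub_goldenConj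
  refine ⟨V, inferInstance, inferInstance, G, inferInstance, .inl false, .inl true, by simp,
    revival, 6912 * (12 + goldenRatio + √6), ?_, 6912 * (12 + goldenConj + √6), ?_, ?_⟩
  · change 0 < E _ _ _ _
    rw [E_rel _ _ goldenConj_sq fun m h => ne56 (m - 1) (by push_cast; linarith), E_diag]
    exact mul_pos (neg_pos.mpr goldenConj_neg) (pow_pos (norm_pos_iff.mpr supp) 2)
  · obtain ⟨a, b, c, d, h1, h2⟩ := conj (minpoly ℚ (6912 * (12 + goldenRatio + √6) : ℝ))
    rw [minpoly.aeval] at h1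
    have z1 := indep _ _ _ _ h1.symm
    have z2 := indep (6 * c) 0 a b (by
      rw [z1] at h1; push_cast at h1 ⊢; linear_combination -√6 * h1 - (c : ℝ) * h6)
    rw [h2, h1, z1, z2]; simp
  · change ¬ 0 < E _ _ _ _
    rw [E_rel _ _ goldenRatio_sq fun m h => ne56 (1 - m) (by push_cast; linarith), E_diag, not_lt]
    exact mul_nonpos_of_nonpos_of_nonneg (neg_nonpos.mpr goldenRatio_pos.le) (sq_nonneg _)

end Pool.Agent.Results.MP_d93d44_co.NotClosed
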